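import Pool.Agent.H209.Cx.Final

/-!
# The multiplier algebra of `L⁴` of the Cantor group is not a cortex algebra

Let `G = (ZMod 2)^ℕ` be the Cantor group with normalised Haar measure, and let
`A = M(L⁴(G))` be the algebra of the bounded operators on `L⁴(G)` which commute with all
translations. We find a character `φ` of `A` which does not extend to some commutative Banach
algebra containing `A` isometrically. So the answer to Q1 is negative.

Idea. For `N ≥ 0` and `v, w ∈ (ZMod 2)^N` let `e(N, v, w)` be the character of `G` given by the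
rank-one matrix `(1, v) ⊗ (1, w)` on a block of `(N + 1)²` coordinates, and let `E` be the set of
these characters. Its lines are the sets on which `(N, w)`, or `(N, v)`, is constant.
* A function on `E` whose restriction to all lines is, uniformly, an `L⁴` multiplier is itself an
  `L⁴` multiplier when extended by zero (the only solutions of `s + t = u + v` in `E` are trivial
  or have all four characters on two parallel lines which coincide).
* Let `x₁ = |v| / N - a`, `x₂ = |w| / N - a` on `E` (zero elsewhere), `a = 1/2 + 2i/51`, and let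
  `x₃` be the indicator of the complement of `E`. On each line one of `x₁`, `x₂` is a nonzero
  constant; localising at lines gives a superalgebra in which `x₁, x₂, x₃` generate the unit ideal.
* In `A` they do not: if `x₁ R₁ + x₂ R₂ + x₃ R₃ = 1`, then averages of the symbols of `R₁`, `R₂`
  against binomial weights are polynomials in two variables which are bounded on a cross (a
  Riesz product argument in `L⁴`), hence, by the three lines theorem, near `(1/2, 1/2)`, with a
  bound independent of `N`; Cauchy's estimate gives `1 ≤ C / N` for all `N`.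
-/

namespace Pool.Agent.Results.MP_d09f5b_an.CortexFails

open MeasureTheory
open scoped ENNReal

/-- The character `φ` of the (commutative) Banach algebra `A` lies in the cortex of `A`: for every
commutative Banach algebra `B` containing `A` isometrically, with the same unit, it extends to a
character of `B`. -/
def InCortex (A : Type) [NormedRing A] [NormedAlgebra ℂ A] (φ : A →ₐ[ℂ] ℂ) : Prop :=
  ∀ (B : Type) [NormedCommRing B] [NormedAlgebra ℂ B] [CompleteSpace B] (ι : A →ₐ[ℂ] B),
    Isometry ι → ∃ ψ : B →ₐ[ℂ] ℂ, ∀ a, ψ (ι a) = φ a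

/-- The (commutative) Banach algebra `A` is a cortex algebra: all its characters lie in its
cortex. -/
def IsCortexAlgebra (A : Type) [NormedRing A] [NormedAlgebra ℂ A] : Prop :=
  ∀ φ : A →ₐ[ℂ] ℂ, InCortex A φ

section Space

variable {G : Type} [MeasurableSpace G] (μ : Measure G) (p : ℝ≥0∞) [Fact (1 ≤ p)]

/-- The Banach space `L^p(G)` of complex functions, with its usual structure. -/
def LpG : Type := Lp ℂ p μ

noncomputable instance instGroup : NormedAddCommGroup (LpG μ p) :=
  @Lp.instNormedAddCommGroup G ℂ _ p μ _ _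

noncomputable instance instSpace : NormedSpace ℂ (LpG μ p) :=
  @Lp.instNormedSpace G ℂ _ p μ _ ℂ _ _ _

/-- The bounded linear operators on `L^p(G)`, with composition and the operator norm. -/
def Op : Type := LpG μ p →L[ℂ] LpG μ p

noncomputable instance instOpRing : NormedRing (Op μ p) :=
  @ContinuousLinearMap.toNormedRing ℂ (LpG μ p) _ _ _

noncomputable instance instOpAlg : NormedAlgebra ℂ (Op μ p) :=
  @ContinuousLinearMap.toNormedAlgebra ℂ (LpG μ p) _ _ _

end Space

section Definitions

variable {G : Type} [AddCommGroup G] [TopologicalSpace G] [IsTopologicalAddGroup G]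
  [MeasurableSpace G] [BorelSpace G] (μ : Measure G) [μ.IsAddHaarMeasure]
  (p : ℝ≥0∞) [Fact (1 ≤ p)]

/-- Translation by `a` on `L^p(G)`: the class of `f` goes to the class of `x ↦ f (x + a)`. -/
noncomputable def translation (a : G) : Op μ p :=
  (Lp.compMeasurePreservingₗᵢ ℂ (fun x => x + a)
    (measurePreserving_add_right μ a)).toContinuousLinearMap

/-- The multiplier algebra `M(L^p(G))` as a subalgebra of the algebra of all bounded operators:
the operators commuting with all translations. -/
noncomputable def MultiplierSubalgebra : Subalgebra ℂ (Op μ p) :=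
  Subalgebra.centralizer ℂ (Set.range (translation μ p))

/-- The multiplier algebra `M(L^p(G))`, with composition and the operator norm. -/
def MultiplierAlgebra : Type := MultiplierSubalgebra μ p

noncomputable instance instMulRing : NormedRing (MultiplierAlgebra μ p) :=
  Subalgebra.normedRing (MultiplierSubalgebra μ p)

noncomputable instance instMulAlg : NormedAlgebra ℂ (MultiplierAlgebra μ p) :=
  Subalgebra.toNormedAlgebra (MultiplierSubalgebra μ p)

end Definitions

section Transfer

variable (μ : Measure (ℕ → ZMod 2)) [μ.IsAddHaarMeasure]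

theorem mem_of_mem (T : Lp ℂ 4 μ →L[ℂ] Lp ℂ 4 μ) (hT : T ∈ Pool.Agent.H209.Cx.Multipliers μ 4) :
    @Membership.mem (Op μ 4) _ _ (MultiplierSubalgebra μ 4) T := by
  refine (Subalgebra.mem_centralizer_iff (A := Op μ 4) ℂ (z := T)).2 ?_
  rintro _ ⟨x, rfl⟩
  exact (Subalgebra.mem_centralizer_iff ℂ).1 hT _ ⟨x, rfl⟩

theorem mem_of_mem' (T : Op μ 4) (hT : T ∈ MultiplierSubalgebra μ 4) :
    @Membership.mem (Lp ℂ 4 μ →L[ℂ] Lp ℂ 4 μ) _ _ (Pool.Agent.H209.Cx.Multipliers μ 4) T := by
  refine (Subalgebra.mem_centralizer_iff (A := Lp ℂ 4 μ →L[ℂ] Lp ℂ 4 μ) ℂ (z := T)).2 ?_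
  rintro _ ⟨x, rfl⟩
  exact (Subalgebra.mem_centralizer_iff (A := Op μ 4) ℂ).1 hT _ ⟨x, rfl⟩

/-- the identity map between the two copies -/
noncomputable def toM : Pool.Agent.H209.Cx.Multipliers μ 4 →ₐ[ℂ] MultiplierAlgebra μ 4 where
  toFun T := ⟨(T : Lp ℂ 4 μ →L[ℂ] Lp ℂ 4 μ), mem_of_mem μ _ T.2⟩
  map_one' := rfl
  map_zero' := rfl
  map_mul' _ _ := rfl
  map_add' _ _ := rfl
  commutes' _ := rfl

/-- the identity map between the two copies, in the other direction -/
noncomputable def ofM : MultiplierAlgebra μ 4 →ₐ[ℂ] Pool.Agent.H209.Cx.Multipliers μ 4 where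
  toFun T := ⟨T.1, mem_of_mem' μ _ T.2⟩
  map_one' := rfl
  map_zero' := rfl
  map_mul' _ _ := rfl
  map_add' _ _ := rfl
  commutes' _ := rfl

theorem ofM_toM (T : Pool.Agent.H209.Cx.Multipliers μ 4) : ofM μ (toM μ T) = T := rfl

theorem norm_ofM (T : MultiplierAlgebra μ 4) : ‖ofM μ T‖ = ‖T‖ := rfl

end Transfer

/-- For the normalised Haar measure `μ` of the Cantor group `(ZMod 2)^ℕ` and `p = 4`, the
multiplier algebra `M(L⁴(μ))` is not a cortex algebra. -/
theorem result : ∃ (μ : Measure (ℕ → ZMod 2)) (_ : IsProbabilityMeasure μ) (_ : μ.IsAddHaarMeasure)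
    (_ : Fact ((1 : ℝ≥0∞) ≤ 4)), ¬ IsCortexAlgebra (MultiplierAlgebra μ 4) := by
  let T : TopologicalSpace.PositiveCompacts (ℕ → ZMod 2) := ⊤
  have hT : IsProbabilityMeasure (Measure.addHaarMeasure T) :=
    ⟨Measure.addHaarMeasure_self⟩
  refine ⟨Measure.addHaarMeasure T, hT, inferInstance, inferInstance, fun h => ?_⟩
  obtain ⟨φ, B, i1, i2, i3, ι, h1, h2⟩ := Pool.Agent.H209.Cx.main (Measure.addHaarMeasure T)
  obtain ⟨ψ, hψ⟩ := h (φ.comp (ofM _)) B (ι.comp (ofM _)) (by
    refine AddMonoidHomClass.isometry_of_norm _ fun S => ?_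
    exact (AddMonoidHomClass.isometry_iff_norm ι).1 h1 (ofM _ S))
  refine h2 ψ (AlgHom.ext fun S => ?_)
  exact hψ (toM _ S)

end Pool.Agent.Results.MP_d09f5b_an.CortexFails
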